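import Pool.Agent.W181.RT.Props

/-!
Parts T3 and HOM.
-/

set_option autoImplicit false

namespace Pool.Agent.W368.RT

open Pool.Agent.W181.RT

section T3

variable {R : Type} [CommRing R]

theorem prod_X_pow (i : ℕ) (β : Fin i → ℕ) :
    (∏ j, (MvPolynomial.X j : MvPolynomial (Fin i) R) ^ (β j)) =
      MvPolynomial.monomial (Finsupp.equivFunOnFinite.symm β) 1 := by
  rw [MvPolynomial.monomial_eq, Finsupp.prod_fintype _ _ (fun j => pow_zero _)]
  simp

theorem Lam_monomial (q : ℕ → R) (i : ℕ) (β : Fin i →₀ ℕ) (r : R) :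
    Lam q i (MvPolynomial.monomial β r) = r * ∏ j, q (β j) := by
  have h : (MvPolynomial.monomial β r : MvPolynomial (Fin i) R) =
      r • (MvPolynomial.basisMonomials (Fin i) R) β := by
    rw [MvPolynomial.coe_basisMonomials, MvPolynomial.smul_monomial, smul_eq_mul, mul_one]
  rw [h, map_smul, Lam, Module.Basis.constr_basis, smul_eq_mul]

theorem Lam_prod (q : ℕ → R) (i : ℕ) (β : Fin i → ℕ) :
    Lam q i (∏ j, (MvPolynomial.X j : MvPolynomial (Fin i) R) ^ (β j)) = ∏ j, q (β j) := by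
  rw [prod_X_pow, Lam_monomial, one_mul]
  rfl

theorem Lam_det (q : ℕ → R) (i : ℕ) (α : Fin i → ℕ) :
    Lam q i (Matrix.det (Matrix.of fun (l j : Fin i) =>
      (MvPolynomial.X j : MvPolynomial (Fin i) R) ^ (α l)) * yd R i) = hk q i α := by
  rw [Matrix.det_apply, Finset.sum_mul, map_sum, hk, Matrix.det_apply]
  refine Finset.sum_congr rfl fun σ _ => ?_
  rw [smul_mul_assoc, Units.smul_def, Units.smul_def, map_zsmul]
  congr 1
  rw [yd, ← Finset.prod_mul_distrib]
  have h : (∏ j : Fin i, (Matrix.of (fun (l j : Fin i) =>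
      (MvPolynomial.X j : MvPolynomial (Fin i) R) ^ (α l)) (σ j) j *
        (MvPolynomial.X j : MvPolynomial (Fin i) R) ^ (j : ℕ))) =
      ∏ j : Fin i, (MvPolynomial.X j : MvPolynomial (Fin i) R) ^ (α (σ j) + (j : ℕ)) :=
    Finset.prod_congr rfl fun j _ => by rw [Matrix.of_apply, pow_add]
  rw [h, Lam_prod]
  rfl

end T3

theorem t_T3 (hA : S_ALT) : S_T3 := by
  intro R _ q i α
  refine ⟨gal R i α, ?_⟩
  rw [Th, ← hA R i α, Lam_det]

section HOM

variable {R : Type} [CommRing R] (s : R →+* R) (i : ℕ)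

/-- scaling `y_j` by `2` and applying `s` to the coefficients -/
noncomputable def sY : MvPolynomial (Fin i) R →+* MvPolynomial (Fin i) R :=
  MvPolynomial.eval₂Hom (MvPolynomial.C.comp s) (fun j => 2 * MvPolynomial.X j)

/-- scaling `ε_c` by `2 ^ (c + 1)` and applying `s` to the coefficients -/
noncomputable def sE : MvPolynomial (Fin i) R →+* MvPolynomial (Fin i) R :=
  MvPolynomial.eval₂Hom (MvPolynomial.C.comp s)
    (fun c => 2 ^ ((c : ℕ) + 1) * MvPolynomial.X c)

theorem sY_C (r : R) : sY s i (MvPolynomial.C r) = MvPolynomial.C (s r) := by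
  rw [sY, MvPolynomial.eval₂Hom_C]
  rfl

theorem sY_X (j : Fin i) : sY s i (MvPolynomial.X j) = 2 * MvPolynomial.X j := by
  rw [sY, MvPolynomial.eval₂Hom_X']

theorem sE_C (r : R) : sE s i (MvPolynomial.C r) = MvPolynomial.C (s r) := by
  rw [sE, MvPolynomial.eval₂Hom_C]
  rfl

theorem sE_X (c : Fin i) : sE s i (MvPolynomial.X c) = 2 ^ ((c : ℕ) + 1) * MvPolynomial.X c := by
  rw [sE, MvPolynomial.eval₂Hom_X']

theorem sig_Lam (q : ℕ → R) (hq : ∀ a, s (q a) = 2 ^ (a + 1) * q a) (f : MvPolynomial (Fin i) R) :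
    s (Lam q i f) = 2 ^ i * Lam q i (sY s i f) := by
  induction f using MvPolynomial.induction_on' with
  | monomial β r =>
    have h1 : sY s i (MvPolynomial.monomial β r) =
        MvPolynomial.monomial β (2 ^ (∑ j, β j) * s r) := by
      rw [sY, MvPolynomial.eval₂Hom_monomial, Finsupp.prod_fintype _ _ (fun j => pow_zero _)]
      simp only [mul_pow]
      rw [Finset.prod_mul_distrib, Finset.prod_pow_eq_pow_sum, prod_X_pow]
      have h2 : (2 : MvPolynomial (Fin i) R) ^ (∑ j, β j) =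
          MvPolynomial.C (2 ^ (∑ j, β j)) := by
        rw [map_pow, map_ofNat]
      rw [h2]
      have h3 : Finsupp.equivFunOnFinite.symm (fun x => β x) = β := by
        ext x; rfl
      rw [h3]
      show MvPolynomial.C (s r) * _ = _
      rw [← mul_assoc, ← map_mul, MvPolynomial.C_mul_monomial, mul_one, mul_comm]
    rw [h1, Lam_monomial, Lam_monomial, map_mul, map_prod]
    simp only [hq]
    rw [Finset.prod_mul_distrib, Finset.prod_pow_eq_pow_sum, Finset.sum_add_distrib]
    simp only [Finset.sum_const, Finset.card_univ, Fintype.card_fin, smul_eq_mul, mul_one]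
    rw [pow_add]
    ring
  | add p q hp hq => rw [map_add, map_add, map_add, map_add, hp, hq, mul_add]

theorem sY_esymm (n : ℕ) : sY s i (MvPolynomial.esymm (Fin i) R n) =
    2 ^ n * MvPolynomial.esymm (Fin i) R n := by
  rw [MvPolynomial.esymm, map_sum, Finset.mul_sum]
  refine Finset.sum_congr rfl fun t ht => ?_
  rw [map_prod]
  simp only [sY_X]
  rw [Finset.prod_mul_distrib, Finset.prod_const, (Finset.mem_powersetCard.1 ht).2]

theorem sY_ey (g : MvPolynomial (Fin i) R) :
    sY s i (ey R i g) = ey R i (sE s i g) := by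
  induction g using MvPolynomial.induction_on with
  | C r =>
    rw [sE_C, ey, MvPolynomial.aeval_C, MvPolynomial.aeval_C, MvPolynomial.algebraMap_eq, sY_C]
  | add p q hp hq => rw [map_add, map_add, map_add, map_add, hp, hq]
  | mul_X p c hp =>
    rw [map_mul, map_mul, map_mul, map_mul, hp, sE_X, map_mul, map_pow, map_ofNat]
    congr 1
    rw [ey, MvPolynomial.aeval_X, sY_esymm]

theorem sY_Vd : sY s i (Vd R i) = 2 ^ (∑ c : Fin i, (c : ℕ)) * Vd R i := by
  rw [Vd, RingHom.map_det, ← Finset.prod_pow_eq_pow_sum, ← Matrix.det_mul_row]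
  congr 1
  ext1 j c
  simp only [RingHom.mapMatrix_apply, Matrix.map_apply, Matrix.of_apply, map_pow, sY_X, mul_pow]

theorem sY_yd : sY s i (yd R i) = 2 ^ (∑ c : Fin i, (c : ℕ)) * yd R i := by
  rw [yd, map_prod, ← Finset.prod_pow_eq_pow_sum, ← Finset.prod_mul_distrib]
  refine Finset.prod_congr rfl fun j _ => ?_
  rw [map_pow, sY_X, mul_pow]

theorem two_pow_Lam (q : ℕ → R) (n : ℕ) (f : MvPolynomial (Fin i) R) :
    Lam q i (2 ^ n * f) = 2 ^ n * Lam q i f := by
  have h : (2 ^ n * f : MvPolynomial (Fin i) R) = ((2 : R) ^ n) • f := by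
    rw [Algebra.smul_def, map_pow, map_ofNat]
  rw [h, map_smul, smul_eq_mul]

theorem two_pow_Th (q : ℕ → R) (n : ℕ) (g : MvPolynomial (Fin i) R) :
    Th q i (2 ^ n * g) = 2 ^ n * Th q i g := by
  rw [Th, Th, ← two_pow_Lam, map_mul (ey R i), map_pow (ey R i), map_ofNat (ey R i)]
  congr 1
  ring

theorem sum_fin : i + ((∑ c : Fin i, (c : ℕ)) + ∑ c : Fin i, (c : ℕ)) = i * i := by
  have h : ∑ c : Fin i, (c : ℕ) = ∑ c ∈ Finset.range i, c := Fin.sum_univ_eq_sum_range (fun c => c) i
  have h2 := Finset.sum_range_id_mul_two i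
  rw [h]
  rcases i with _ | i
  · simp
  · simp only [Nat.add_sub_cancel] at h2
    nlinarith

theorem sig_Th (q : ℕ → R) (hq : ∀ a, s (q a) = 2 ^ (a + 1) * q a) (g : MvPolynomial (Fin i) R) :
    s (Th q i g) = 2 ^ (i * i) * Th q i (sE s i g) := by
  rw [Th, sig_Lam s i q hq, map_mul (sY s i), map_mul (sY s i), sY_ey, sY_Vd, sY_yd, Th]
  have h : (ey R i (sE s i g) * (2 ^ (∑ c : Fin i, (c : ℕ)) * Vd R i) *
      (2 ^ (∑ c : Fin i, (c : ℕ)) * yd R i)) =
      2 ^ ((∑ c : Fin i, (c : ℕ)) + ∑ c : Fin i, (c : ℕ)) *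
        (ey R i (sE s i g) * Vd R i * yd R i) := by
    rw [pow_add]
    ring
  rw [h, two_pow_Lam, ← mul_assoc, ← pow_add, sum_fin]

/-! ### homogeneous power series -/

/-- homogeneous power series -/
def HPS (F : PowerSeries (MvPolynomial (Fin i) R)) : Prop :=
  PowerSeries.map (sE s i) F = PowerSeries.rescale 2 F

theorem HPS_iff (F : PowerSeries (MvPolynomial (Fin i) R)) :
    HPS s i F ↔ ∀ n, sE s i (PowerSeries.coeff n F) = 2 ^ n * PowerSeries.coeff n F := by
  rw [HPS, PowerSeries.ext_iff]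
  simp only [PowerSeries.coeff_map, PowerSeries.coeff_rescale]

theorem HPS_mul (F G : PowerSeries (MvPolynomial (Fin i) R)) (hF : HPS s i F)
    (hG : HPS s i G) : HPS s i (F * G) := by
  rw [HPS, map_mul, map_mul, hF, hG]

theorem HPS_W (W : Polynomial R) (hW : ∀ n, s (W.coeff n) = 2 ^ n * W.coeff n) :
    HPS s i ((W.map MvPolynomial.C : Polynomial (MvPolynomial (Fin i) R)) :
      PowerSeries (MvPolynomial (Fin i) R)) := by
  rw [HPS_iff]
  intro n
  rw [Polynomial.coeff_coe, Polynomial.coeff_map, sE_C, hW n, map_mul, map_pow, map_ofNat]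

theorem HPS_D : HPS s i (Dp R i) := by
  rw [HPS, Dp, map_add, map_add, map_one, map_one, map_sum, map_sum]
  congr 1
  refine Finset.sum_congr rfl fun c _ => ?_
  have h : PowerSeries.rescale (2 : MvPolynomial (Fin i) R)
      (PowerSeries.C ((-1) ^ (c.val + 1) * MvPolynomial.X c)) =
      PowerSeries.C ((-1) ^ (c.val + 1) * MvPolynomial.X c) := by
    ext n
    rw [PowerSeries.coeff_rescale, PowerSeries.coeff_C]
    split_ifs with hn
    · rw [hn, pow_zero, one_mul]
    · rw [mul_zero]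
  rw [map_mul (PowerSeries.map (sE s i)), map_mul (PowerSeries.rescale _), h,
    map_pow (PowerSeries.map (sE s i)), map_pow (PowerSeries.rescale _), PowerSeries.map_X,
    PowerSeries.map_C, PowerSeries.rescale_X, map_mul (sE s i), map_pow (sE s i),
    map_neg (sE s i), map_one (sE s i), sE_X, mul_pow, ← map_pow, ← mul_assoc (PowerSeries.C _), ← map_mul]
  congr 2
  ring

theorem HPS_inv : HPS s i (PowerSeries.invOfUnit (Dp R i) 1) := by
  have h0 : PowerSeries.constantCoeff (Dp R i) =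
      ((1 : (MvPolynomial (Fin i) R)ˣ) : MvPolynomial (Fin i) R) := by
    rw [Dp, map_add, map_one, map_sum, Units.val_one, Finset.sum_eq_zero, add_zero]
    intro c _
    rw [map_mul, map_pow, PowerSeries.constantCoeff_X, zero_pow (Nat.succ_ne_zero _), mul_zero]
  have h1 := PowerSeries.mul_invOfUnit (Dp R i) 1 h0
  have h2 : PowerSeries.map (sE s i) (Dp R i) *
      PowerSeries.map (sE s i) (PowerSeries.invOfUnit (Dp R i) 1) = 1 := by
    rw [← map_mul, h1, map_one]
  have h3 : PowerSeries.rescale 2 (Dp R i) *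
      PowerSeries.rescale 2 (PowerSeries.invOfUnit (Dp R i) 1) = 1 := by
    rw [← map_mul, h1, map_one]
  have h4 : PowerSeries.map (sE s i) (Dp R i) = PowerSeries.rescale 2 (Dp R i) :=
    HPS_D s i
  rw [h4] at h2
  rw [HPS]
  calc PowerSeries.map (sE s i) (PowerSeries.invOfUnit (Dp R i) 1) =
      PowerSeries.map (sE s i) (PowerSeries.invOfUnit (Dp R i) 1) *
        (PowerSeries.rescale 2 (Dp R i) *
          PowerSeries.rescale 2 (PowerSeries.invOfUnit (Dp R i) 1)) := by
        rw [h3, mul_one]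
    _ = (PowerSeries.rescale 2 (Dp R i) *
        PowerSeries.map (sE s i) (PowerSeries.invOfUnit (Dp R i) 1)) *
          PowerSeries.rescale 2 (PowerSeries.invOfUnit (Dp R i) 1) := by ring
    _ = _ := by rw [h2, one_mul]

theorem HPS_XW (W : Polynomial R) (hW : ∀ n, s (W.coeff n) = 2 ^ n * W.coeff n) (n : ℕ) :
    sE s i (PowerSeries.coeff n (XW i W)) = 2 ^ n * PowerSeries.coeff n (XW i W) :=
  (HPS_iff s i _).1 (HPS_mul s i _ _ (HPS_W s i W hW) (HPS_inv s i)) n

theorem prod_XW (W : Polynomial R) (hW : ∀ n, s (W.coeff n) = 2 ^ n * W.coeff n)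
    (lam : Multiset ℕ) :
    sE s i (lam.map (fun l => PowerSeries.coeff l (XW i W))).prod =
      2 ^ lam.sum * (lam.map (fun l => PowerSeries.coeff l (XW i W))).prod := by
  induction lam using Multiset.induction_on with
  | empty => simp
  | cons a t ih =>
    rw [Multiset.map_cons, Multiset.prod_cons, Multiset.sum_cons, map_mul, ih, HPS_XW s i W hW,
      pow_add]
    ring

theorem main (q : ℕ → R) (hq : ∀ a, s (q a) = 2 ^ (a + 1) * q a) (T S : Polynomial R)
    (hT : ∀ n, s (T.coeff n) = 2 ^ n * T.coeff n) (hS : ∀ n, s (S.coeff n) = 2 ^ n * S.coeff n)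
    (lam mu : Multiset ℕ) :
    s (Th q i ((lam.map (fun l => PowerSeries.coeff l (XW i T))).prod *
      (mu.map (fun l => PowerSeries.coeff l (XW i S))).prod)) =
      2 ^ (i * i + lam.sum + mu.sum) *
      Th q i ((lam.map (fun l => PowerSeries.coeff l (XW i T))).prod *
      (mu.map (fun l => PowerSeries.coeff l (XW i S))).prod) := by
  rw [sig_Th s i q hq, map_mul, prod_XW s i T hT, prod_XW s i S hS]
  have h : ∀ x y : MvPolynomial (Fin i) R, 2 ^ lam.sum * x * (2 ^ mu.sum * y) =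
      2 ^ (lam.sum + mu.sum) * (x * y) := by
    intro x y
    rw [pow_add]
    ring
  rw [h, two_pow_Th, ← mul_assoc, ← pow_add, add_assoc]

end HOM

theorem smul_two_pow (ℓ k n : ℕ) (x : RR ℓ k) : ((2 : ℚ) ^ n) • x = 2 ^ n * x := by
  have h : algebraMap ℚ (RR ℓ k) ((2 : ℚ) ^ n) = 2 ^ n := by rw [map_pow, map_ofNat]
  rw [← h]
  exact @Algebra.smul_def ℚ (RR ℓ k) _ _ _ _ _

theorem t_HOM : S_HOM := by
  intro ℓ k i lam mu
  rw [mem_RD, smul_two_pow]
  have hq : ∀ a, (sig ℓ k).toRingHom (qq ℓ k a) = 2 ^ (a + 1) * qq ℓ k a := by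
    intro a
    have h := qq_mem ℓ k a
    rw [mem_RD, smul_two_pow] at h
    exact h
  have hT : ∀ n, (sig ℓ k).toRingHom ((TT ℓ k).coeff n) = 2 ^ n * (TT ℓ k).coeff n := by
    intro n
    have h := TT_coeff_mem ℓ k n
    rw [mem_RD, smul_two_pow] at h
    exact h
  have hS : ∀ n, (sig ℓ k).toRingHom ((SS ℓ k).coeff n) = 2 ^ n * (SS ℓ k).coeff n := by
    intro n
    have h := SS_coeff_mem ℓ k n
    rw [mem_RD, smul_two_pow] at h
    exact h
  exact main (sig ℓ k).toRingHom i (qq ℓ k) hq (TT ℓ k) (SS ℓ k) hT hS lam mu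

end Pool.Agent.W368.RT
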